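import Pool.Agent.H76.EHB.Second
import Pool.Agent.H76.EHB.JB
import Pool.Agent.H91.EHA.Defs

/-!
# PROJECT W (MP_a78e8f_nt): common definitions

Elliott-Halberstam with the saving `(log x)^(-1/2+o(1))` for almost all residues `a` in every interval of
length `x^ε`.  Notation: `L = log x`, `f = hR R` with `R = ⌊L^20⌋`, `ee(t) = exp(2 π i t)`.
`FF f N θ = ∑_{n ≤ N} f(n) ee(n θ)`, `S2 f N = ∑_{n ≤ N} f(n)^2`, `ZZ S t = ∑_{k ∈ S} k^{-1/2 + i t}`,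
`Mel g t = ∫_0^∞ g(θ) θ^{-1/2 - i t} dθ`, `II S g = ∫_0^∞ |∑_{k ∈ S} g(k y)|^2 dy` are those of EHB.
-/

set_option autoImplicit false

namespace Pool.Agent.H35.W

open Finset MeasureTheory
open Pool.Agent.H91.PK (ee)
open Pool.Agent.H76.EHB

/-- the primes of the block `(P, 2P]` -/
def pb (P : ℕ) : Finset ℕ := (Ioc P (2 * P)).filter Nat.Prime

/-- the primes of the block `(P, 2P]` in the class `l` modulo `d` -/
def pbl (P d : ℕ) (l : ℤ) : Finset ℕ := (pb P).filter (fun p => (d : ℤ) ∣ (p : ℤ) - l)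

/-- a finite set of natural numbers as a set of integers -/
def zs (S : Finset ℕ) : Finset ℤ := S.image (fun k : ℕ => (k : ℤ))

/-- `k` has no prime factor in the blocks `pb (P 2^i)`, `i < J`, i.e. in `(P, P 2^J]` -/
def Rk (P J k : ℕ) : Prop := ∀ i, i < J → ∀ p ∈ pb (P * 2 ^ i), ¬ p ∣ k

open Classical in
/-- the `k ≤ y` without prime factor in `(P, P 2^J]` -/
noncomputable def rgh (P J y : ℕ) : Finset ℕ := (Icc 1 y).filter (fun k => Rk P J k)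

open Classical in
/-- the `k ≤ y` with a prime factor in `(P, P 2^J]` -/
noncomputable def fcs (P J y : ℕ) : Finset ℕ := (Icc 1 y).filter (fun k => ¬ Rk P J k)

open Classical in
/-- the `k ≤ y` divisible by the square of a prime `> P` -/
noncomputable def sqs (P y : ℕ) : Finset ℕ :=
  (Icc 1 y).filter (fun k => ∃ p, P < p ∧ p.Prime ∧ p ^ 2 ∣ k)

/-- the correlation of `g` with `ee(n α + t log (n - a0))` on `(M, y]` -/
noncomputable def cor (g : ℕ → ℝ) (a0 M : ℕ) (α t : ℝ) (y : ℕ) : ℂ :=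
  ∑ n ∈ Ioc M y, (g n : ℂ) * ee (n * α + t * Real.log ((n : ℝ) - a0))

/-- the small denominator integral of a finite set `T` of integers -/
noncomputable def JJT (f : ℕ → ℝ) (N : ℕ) (T : Finset ℤ) (α a Y : ℝ) : ℝ :=
  ∫ y in Set.Icc (-Y) Y, ‖∑ k ∈ T, FF f N (α + k * y) * ee (-(a * k * y))‖ ^ 2

/-- the exponentially damped exponential sum -/
noncomputable def ge (f : ℕ → ℝ) (N : ℕ) (α a Θ s θ : ℝ) : ℂ :=
  if 0 < θ then FF f N (α + s * θ) * ee (-(a * s * θ)) * ((Real.exp (-(θ / Θ)) : ℝ) : ℂ) else 0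

/-- the parameters `(c, d, t, y)` of the test functions `v(n) = ee(n c/d + t log(n - a0))`, `n ≤ y` -/
def Vx (x N B : ℕ) : Set (ℤ × ℕ × ℝ × ℕ) :=
  {p | 1 ≤ p.2.1 ∧ (p.2.1 : ℝ) ≤ Real.log x ^ B ∧ IsCoprime p.1 (p.2.1 : ℤ) ∧
    |p.2.2.1| ≤ (x : ℝ) ^ (2 : ℕ) ∧ p.2.2.2 ≤ N}

/-- the test function with the parameters `p = (c, d, t, y)` on `(M, y]` -/
noncomputable def vv (a0 M : ℕ) (p : ℤ × ℕ × ℝ × ℕ) (n : ℕ) : ℂ :=
  if n ∈ Ioc M p.2.2.2 then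
    ee (n * ((p.1 : ℝ) / p.2.1) + p.2.2.1 * Real.log ((n : ℝ) - a0)) else 0

/-- the threshold `λ(t) = x max ((1 + |t|)^(-1/8), x^(-η))` -/
noncomputable def lam (x : ℕ) (η t : ℝ) : ℝ :=
  x * max ((1 + |t|) ^ (-(1 / 8) : ℝ)) ((x : ℝ) ^ (-η))

/-- `g` is supported on `(M, N]`, has the second moment `≤ x L^2`, and does not correlate with
`ee(n c/d + t log(n - a0))`, `d ≤ L^B`, `|t| ≤ x`. -/
structure CorB (x B m : ℕ) (η : ℝ) (N M a0 : ℕ) (g : ℕ → ℝ) : Prop where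
  supp : ∀ n, n ∉ Ioc M N → g n = 0
  sq : S2 g N ≤ x * Real.log x ^ 2
  low : ∀ (c : ℤ) (d : ℕ) (t : ℝ) (y : ℕ), 1 ≤ d → (d : ℝ) ≤ Real.log x ^ B →
    IsCoprime c (d : ℤ) → y ≤ N → |t| ≤ Real.log x ^ (4 * m) →
      ‖cor g a0 M ((c : ℝ) / d) t y‖ ≤ x / Real.log x ^ (3 * m)
  high : ∀ (c : ℤ) (d : ℕ) (t : ℝ) (y : ℕ), 1 ≤ d → (d : ℝ) ≤ Real.log x ^ B →
    IsCoprime c (d : ℤ) → y ≤ N → |t| ≤ x →
      ‖cor g a0 M ((c : ℝ) / d) t y‖ ≤ lam x η t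

end Pool.Agent.H35.W
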